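import Pool.Agent.U79.GY.Stm
import Pool.Agent.Y475.CQ.HalA

/-!
# GY-HAL1: the logarithmic density for independent quadratic characters (helper796)

Generalization of `Pool.Agent.U158.GD.HAL` (helper158) and `Pool.Agent.Y475.CQ.HAL` (helper475). The
characters are `n ↦ (a / n)` for odd `n`, with period `4 |a|`.
-/

set_option autoImplicit false
set_option linter.unusedVariables false

open scoped Classical

namespace Pool.Agent.U796.GY

open Finset
open Pool.Agent.U79.GY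
open Pool.Agent.Y475.CQ (main_le tsum_le part_le sum_zero pow_small zeta_le)

/-- the character -/
noncomputable def ch (a : ℤ) : ℕ →* ℝ where
  toFun n := if Odd n then ((jacobiSym a n : ℤ) : ℝ) else 0
  map_one' := by
    rw [if_pos odd_one]
    simp
  map_mul' m n := by
    by_cases hm : Odd m
    · by_cases hn : Odd n
      · rw [if_pos (hm.mul hn), if_pos hm, if_pos hn]
        have : NeZero m := ⟨hm.pos.ne'⟩
        have : NeZero n := ⟨hn.pos.ne'⟩
        rw [jacobiSym.mul_right]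
        push_cast
        rfl
      · rw [if_neg (fun h => hn (Nat.odd_mul.1 h).2), if_neg hn, mul_zero]
    · rw [if_neg (fun h => hm (Nat.odd_mul.1 h).1), if_neg hm, zero_mul]

theorem ch_odd (a : ℤ) {n : ℕ} (hn : Odd n) : ch a n = ((jacobiSym a n : ℤ) : ℝ) := if_pos hn

theorem ch_even (a : ℤ) {n : ℕ} (hn : ¬ Odd n) : ch a n = 0 := if_neg hn

theorem ch_val (a : ℤ) (n : ℕ) : ch a n = 0 ∨ ch a n = 1 ∨ ch a n = -1 := by
  by_cases hn : Odd n
  · rw [ch_odd a hn]
    rcases jacobiSym.trichotomy a n with h | h | h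
    · left; rw [h]; simp
    · right; left; rw [h]; simp
    · right; right; rw [h]; simp
  · left; exact ch_even a hn

theorem abs_ch (a : ℤ) (n : ℕ) : |ch a n| ≤ 1 := by
  rcases ch_val a n with h | h | h <;> rw [h] <;> norm_num

theorem ch_mul (a b : ℤ) (n : ℕ) : ch (a * b) n = ch a n * ch b n := by
  by_cases hn : Odd n
  · rw [ch_odd _ hn, ch_odd _ hn, ch_odd _ hn, jacobiSym.mul_left]
    push_cast
    rfl
  · rw [ch_even _ hn, ch_even _ hn, zero_mul]

/-- the product of the characters -/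
theorem ch_prod (V : Finset ℤ) (hV : V.Nonempty) (n : ℕ) :
    (∏ i ∈ V, ch i) n = ch (∏ a ∈ V, a) n := by
  rw [MonoidHom.finsetProd_apply]
  induction hV using Finset.Nonempty.cons_induction with
  | singleton a => simp
  | cons a s ha hs ih => rw [prod_cons, prod_cons, ch_mul, ih]

/-- the period -/
theorem ch_per (d : ℤ) (n : ℕ) : ch d (4 * d.natAbs + n) = ch d n := by
  have hpar : Odd (4 * d.natAbs + n) ↔ Odd n := by
    rw [Nat.odd_iff, Nat.odd_iff]
    omega
  by_cases hn : Odd n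
  · rw [ch_odd _ hn, ch_odd _ (hpar.2 hn), jacobiSym.mod_right d (hpar.2 hn),
      jacobiSym.mod_right d hn, Nat.add_mod_left]
  · rw [ch_even _ hn, ch_even _ (fun h => hn (hpar.1 h))]

theorem leg (p : ℕ) [Fact p.Prime] (n : ℤ) : jacobiSym n p = legendreSym p n :=
  (jacobiSym.legendreSym.to_jacobiSym p n).symm

/-- a squared factor does not matter -/
theorem jac_sq (b : ℕ) (e : ℤ) {k : ℕ} (hk : Nat.Coprime b k) :
    jacobiSym (e * (b : ℤ) ^ 2) k = jacobiSym e k := by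
  rw [jacobiSym.mul_left, jacobiSym.pow_left, jacobiSym.sq_one (by
    rw [Int.gcd_natCast_natCast]; exact hk), mul_one]

/-- an arbitrary nonsquare is a nonresidue modulo some prime -/
theorem exists_neg (d : ℤ) (hd : ¬ IsSquare d) :
    ∃ k : ℕ, Odd k ∧ Nat.Coprime k (4 * d.natAbs) ∧ jacobiSym d k = -1 := by
  have hd0 : d ≠ 0 := fun h => hd (h ▸ ⟨0, by ring⟩)
  have hn0 : 0 < d.natAbs := Int.natAbs_pos.2 hd0
  obtain ⟨a₀, b, hab, hsf⟩ := Nat.sq_mul_squarefree d.natAbs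
  have hb0 : b ≠ 0 := by
    rintro rfl
    simp at hab
    omega
  have ha0 : a₀ ≠ 0 := hsf.ne_zero
  obtain ⟨i, a, haodd, haa⟩ := Nat.exists_eq_two_pow_mul_odd ha0
  -- the reduction to large primes
  suffices H : ∀ N : ℕ, ∃ k : ℕ, N < k ∧ k.Prime ∧
      ((jacobiSym (if 0 ≤ d then ((2 : ℤ) ^ i * a) else (-1) * ((2 : ℤ) ^ i * a)) k) = -1) by
    obtain ⟨k, hk1, hk2, hk3⟩ := H (4 * d.natAbs + 2)
    have hcop : Nat.Coprime k (4 * d.natAbs) := by
      rw [Nat.Prime.coprime_iff_not_dvd hk2]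
      intro h
      have := Nat.le_of_dvd (by omega) h
      omega
    refine ⟨k, hk2.odd_of_ne_two (by omega), hcop, ?_⟩
    have hbk : Nat.Coprime b k := by
      have h1 : b ∣ 4 * d.natAbs := by
        rw [← hab]
        exact Dvd.dvd.mul_left (Dvd.dvd.mul_right (dvd_pow_self b (by norm_num)) _) _
      exact (Nat.Coprime.coprime_dvd_right h1 hcop).symm
    have hde : d = (if 0 ≤ d then ((2 : ℤ) ^ i * a) else (-1) * ((2 : ℤ) ^ i * a)) *
        (b : ℤ) ^ 2 := by
      have h2 : ((d.natAbs : ℕ) : ℤ) = (b : ℤ) ^ 2 * (2 ^ i * a) := by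
        rw [← hab, haa]
        push_cast
        ring
      split_ifs with h
      · rw [Int.natAbs_of_nonneg h] at h2
        rw [h2]; ring
      · have h3 : ((d.natAbs : ℕ) : ℤ) = -d := Int.ofNat_natAbs_of_nonpos (by omega)
        rw [h3] at h2
        linear_combination -h2
    rw [hde, jac_sq b _ hbk]
    exact hk3
  intro N
  by_cases ha1 : a = 1
  · -- no odd prime
    subst ha1
    have hi : i = 0 ∨ i = 1 := by
      by_contra hi
      have h4 : 2 * 2 ∣ a₀ := by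
        rw [haa]
        refine Dvd.dvd.mul_right ?_ _
        exact pow_dvd_pow 2 (by omega : 2 ≤ i)
      have := hsf 2 h4
      rw [Nat.isUnit_iff] at this
      omega
    have hpr : ∀ r : ℕ, IsUnit ((r : ℕ) : ZMod 8) → ∃ k : ℕ, N + 8 < k ∧ k.Prime ∧
        ((k : ℕ) : ZMod 8) = (r : ZMod 8) := by
      intro r hr
      obtain ⟨k, hk1, hk2, hk3⟩ := Nat.forall_exists_prime_gt_and_eq_mod hr (N + 8)
      exact ⟨k, hk1, hk2, hk3⟩
    have h2k : ∀ k : ℕ, Odd k → jacobiSym 2 k = ZMod.χ₈ (k : ZMod 8) := fun k hk =>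
      jacobiSym.at_two hk
    have h1k : ∀ k : ℕ, Odd k → jacobiSym (-1) k = ZMod.χ₄ (k : ZMod 4) := fun k hk =>
      jacobiSym.at_neg_one hk
    by_cases hpos : 0 ≤ d
    · have hi1 : i = 1 := by
        rcases hi with h | h
        · exfalso
          apply hd
          refine ⟨(b : ℤ), ?_⟩
          have h2 : ((d.natAbs : ℕ) : ℤ) = (b : ℤ) ^ 2 := by
            rw [← hab, haa, h]
            push_cast
            ring
          rw [Int.natAbs_of_nonneg hpos] at h2
          rw [h2]; ring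
        · exact h
      obtain ⟨k, hk1, hk2, hk3⟩ := hpr 5 (by decide)
      have hko : Odd k := hk2.odd_of_ne_two (by omega)
      refine ⟨k, by omega, hk2, ?_⟩
      rw [if_pos hpos, hi1, pow_one, Nat.cast_one, mul_one, h2k k hko, hk3]
      decide
    · obtain ⟨k, hk1, hk2, hk3⟩ := hpr 7 (by decide)
      have hko : Odd k := hk2.odd_of_ne_two (by omega)
      have h78 : k ≡ 7 [MOD 8] := (ZMod.natCast_eq_natCast_iff k 7 8).1 hk3
      have h74 : ((k : ℕ) : ZMod 4) = ((7 : ℕ) : ZMod 4) :=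
        (ZMod.natCast_eq_natCast_iff k 7 4).2 (h78.of_dvd (by norm_num))
      refine ⟨k, by omega, hk2, ?_⟩
      rw [if_neg hpos, Nat.cast_one, mul_one, jacobiSym.mul_left, jacobiSym.pow_left,
        h1k k hko, h2k k hko, hk3, h74]
      have e1 : ZMod.χ₄ ((7 : ℕ) : ZMod 4) = -1 := by decide
      have e2 : ZMod.χ₈ ((7 : ℕ) : ZMod 8) = 1 := by decide
      rw [e1, e2, one_pow, mul_one]
  · -- an odd prime
    obtain ⟨v, hv, hva⟩ := Nat.exists_prime_and_dvd ha1
    obtain ⟨a', rfl⟩ := hva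
    have hv2 : v ≠ 2 := by
      rintro rfl
      have := (Nat.odd_mul.1 haodd).1
      exact absurd this (by decide)
    have ha'odd : Odd a' := (Nat.odd_mul.1 haodd).2
    have hvodd : Odd v := (Nat.odd_mul.1 haodd).1
    have hcop : Nat.Coprime v a' := by
      rw [Nat.Prime.coprime_iff_not_dvd hv]
      rintro ⟨c, rfl⟩
      have h4 : v * v ∣ a₀ := by
        rw [haa]
        exact ⟨2 ^ i * c, by ring⟩
      have := hsf v h4
      rw [Nat.isUnit_iff] at this
      exact hv.one_lt.ne' this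
    have hcop8 : Nat.Coprime v (8 * a') := by
      refine Nat.Coprime.mul_right ?_ hcop
      have : Nat.Coprime v 2 := (Nat.coprime_primes hv Nat.prime_two).2 hv2
      exact Nat.Coprime.pow_right 3 this
    have hvf : Fact v.Prime := ⟨hv⟩
    obtain ⟨g, hg⟩ := FiniteField.exists_nonsquare (F := ZMod v)
      (by rw [ZMod.ringChar_zmod_n]; exact hv2)
    have hg0 : g ≠ 0 := by rintro rfl; exact hg IsSquare.zero
    obtain ⟨k₀, hk1, hk2⟩ := Nat.chineseRemainder hcop8 g.val 1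
    have hkv : ((k₀ : ℕ) : ZMod v) = g := by
      rw [(ZMod.natCast_eq_natCast_iff k₀ g.val v).2 hk1, ZMod.natCast_zmod_val]
    have hc1 : Nat.Coprime k₀ v := by
      rw [Nat.coprime_comm, Nat.Prime.coprime_iff_not_dvd hv]
      intro h
      rw [← ZMod.natCast_eq_zero_iff, hkv] at h
      exact hg0 h
    have hc2 : Nat.Coprime k₀ (8 * a') := by
      have := hk2.gcd_eq
      rw [Nat.gcd_one_left] at this
      exact this
    have hu : IsUnit ((k₀ : ℕ) : ZMod (v * (8 * a'))) := by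
      rw [ZMod.isUnit_iff_coprime]
      exact Nat.Coprime.mul_right hc1 hc2
    have hne : v * (8 * a') ≠ 0 := by
      have := hv.pos
      have := ha'odd.pos
      positivity
    have : NeZero (v * (8 * a')) := ⟨hne⟩
    obtain ⟨k, hk3, hk4, hk5⟩ := Nat.forall_exists_prime_gt_and_eq_mod hu (N + 8)
    have hkm : k ≡ k₀ [MOD v * (8 * a')] := (ZMod.natCast_eq_natCast_iff _ _ _).1 hk5
    have hkv' : k ≡ k₀ [MOD v] := hkm.of_dvd (dvd_mul_right _ _)
    have hk8a : k ≡ 1 [MOD 8 * a'] := (hkm.of_dvd (dvd_mul_left _ _)).trans hk2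
    have hk8 : k ≡ 1 [MOD 8] := hk8a.of_dvd (dvd_mul_right _ _)
    have hka : k ≡ 1 [MOD a'] := hk8a.of_dvd (dvd_mul_left _ _)
    have hko : Odd k := hk4.odd_of_ne_two (by omega)
    have e8 : jacobiSym 2 k = 1 := by
      rw [jacobiSym.at_two hko, (ZMod.natCast_eq_natCast_iff k 1 8).2 hk8]
      decide
    have e4 : jacobiSym (-1) k = 1 := by
      rw [jacobiSym.at_neg_one hko,
        (ZMod.natCast_eq_natCast_iff k 1 4).2 (hk8.of_dvd (by norm_num))]
      decide
    have hk41 : k % 4 = 1 := by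
      have : k % 8 = 1 % 8 := hk8
      omega
    have ev : jacobiSym (v : ℤ) k = -1 := by
      have h1 : jacobiSym (k : ℤ) v = jacobiSym (v : ℤ) k :=
        jacobiSym.quadratic_reciprocity_one_mod_four hk41 hvodd
      rw [← h1, leg, legendreSym.eq_neg_one_iff, Int.cast_natCast,
        (ZMod.natCast_eq_natCast_iff k k₀ v).2 hkv', hkv]
      exact hg
    have ea : jacobiSym (a' : ℤ) k = 1 := by
      have h1 : jacobiSym (k : ℤ) a' = jacobiSym (a' : ℤ) k :=
        jacobiSym.quadratic_reciprocity_one_mod_four hk41 ha'odd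
      rw [← h1]
      have h2 : jacobiSym (k : ℤ) a' = jacobiSym ((1 : ℕ) : ℤ) a' :=
        jacobiSym.mod_left' ((Int.natCast_modEq_iff).2 hka)
      rw [h2, Nat.cast_one, jacobiSym.one_left]
    refine ⟨k, by omega, hk4, ?_⟩
    have e : jacobiSym ((2 : ℤ) ^ i * ((v * a' : ℕ) : ℤ)) k = -1 := by
      rw [jacobiSym.mul_left, jacobiSym.pow_left, e8, one_pow, one_mul, Nat.cast_mul,
        jacobiSym.mul_left, ev, ea, mul_one]
    split_ifs
    · exact e
    · rw [jacobiSym.mul_left, e4, e, one_mul]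

/-- the bound for one L-function -/
theorem L_le (d : ℤ) (hd : ¬ IsSquare d) (σ : ℝ) (hσ : 1 < σ) :
    ∑' n : ℕ, ch d n * (n : ℝ) ^ (-σ) ≤ 3 + Real.log ((4 * d.natAbs : ℕ) : ℝ) := by
  obtain ⟨k, hk1, hk2, hk3⟩ := exists_neg d hd
  have hd0 : d ≠ 0 := fun h => hd (h ▸ ⟨0, by ring⟩)
  have hn0 : 0 < d.natAbs := Int.natAbs_pos.2 hd0
  have hq : 1 ≤ 4 * d.natAbs := by omega
  have hk : ch d k = -1 := by
    rw [ch_odd d hk1, hk3]
    simp
  have hz := sum_zero (ch d) (4 * d.natAbs) hq (ch_per d) k hk2 hk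
  exact tsum_le (fun n => ch d n) (4 * d.natAbs) hq (abs_ch d)
    (part_le _ (4 * d.natAbs) hq (abs_ch d) (ch_per d) hz) σ hσ

theorem one_le_log {M : ℕ} (hM : 3 ≤ M) : 1 ≤ Real.log (M : ℝ) := by
  rw [Real.le_log_iff_exp_le (by exact_mod_cast (by omega : 0 < M))]
  have h1 := Real.exp_one_lt_d9
  have h2 : (3 : ℝ) ≤ (M : ℝ) := by exact_mod_cast hM
  linarith

theorem t_HAL1 : S_HAL1 := by
  intro V hV
  have hne0 : ∀ a ∈ V, a ≠ 0 := by
    intro a ha h0
    refine hV {a} (by simpa using ha) ⟨a, by simp⟩ ?_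
    rw [prod_singleton, h0]
    exact IsSquare.zero
  obtain ⟨A, hA⟩ : ∃ A : ℕ, A = ∏ a ∈ V, a.natAbs := ⟨_, rfl⟩
  have hA1 : 1 ≤ A := by
    rw [hA]
    exact Nat.one_le_iff_ne_zero.2 (prod_ne_zero_iff.2 fun a ha => Int.natAbs_ne_zero.2 (hne0 a ha))
  have hsubA : ∀ V' ⊆ V, ∏ a ∈ V', a.natAbs ≤ A := by
    intro V' hV'
    rw [hA]
    refine Nat.le_of_dvd (by rw [← hA]; omega) (prod_dvd_prod_of_subset _ _ _ hV')
  obtain ⟨C₁, hC₁⟩ : ∃ C₁ : ℝ, C₁ = 4 + Real.log ((4 * A : ℕ) : ℝ) := ⟨_, rfl⟩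
  have hlA : 0 ≤ Real.log ((4 * A : ℕ) : ℝ) := Real.log_nonneg (by exact_mod_cast (by omega))
  have hC1 : 1 ≤ C₁ := by rw [hC₁]; linarith
  refine ⟨9 * C₁, by linarith, fun w T hw hwV hInd hT => ?_⟩
  have hM1 : 1 ≤ Real.log (w.natAbs : ℝ) := one_le_log hw
  obtain ⟨U, hU⟩ : ∃ U : Finset ℤ, U = insert w V := ⟨_, rfl⟩
  rw [← hU] at hInd ⊢
  have hUc : U.card = V.card + 1 := by rw [hU, card_insert_of_notMem hwV]
  have hL_le : ∀ V' ⊆ U, V'.Nonempty → ∀ σ : ℝ, 1 < σ →
      ∑' n : ℕ, (∏ i ∈ V', ch i) n * (n : ℝ) ^ (-σ) ≤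
        C₁ * if w ∈ V' then Real.log (w.natAbs : ℝ) else 1 := by
    intro V' hV' hne σ hσ
    have e : ∑' n : ℕ, (∏ i ∈ V', ch i) n * (n : ℝ) ^ (-σ) =
        ∑' n : ℕ, ch (∏ a ∈ V', a) n * (n : ℝ) ^ (-σ) :=
      tsum_congr fun n => by rw [ch_prod V' hne n]
    rw [e]
    refine (L_le _ (hInd V' hV' hne) σ hσ).trans ?_
    have hpa : (∏ a ∈ V', a).natAbs = ∏ a ∈ V', a.natAbs := by
      induction V' using Finset.induction_on with
      | empty => simp
      | insert a s ha ih => 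
        rw [prod_insert ha, prod_insert ha, Int.natAbs_mul]
        by_cases hs : s.Nonempty
        · rw [ih ((subset_insert a s).trans hV') hs (tsum_congr fun n => by rw [ch_prod s hs n])]
        · rw [not_nonempty_iff_eq_empty] at hs
          subst hs
          simp
    rw [hpa]
    have hpos : 0 < ∏ a ∈ V', a.natAbs := by
      rw [← hpa]
      refine Int.natAbs_pos.2 fun h => ?_
      exact hInd V' hV' hne (h ▸ IsSquare.zero)
    split_ifs with h
    · have hsub : V'.erase w ⊆ V := by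
        intro a ha
        have h1 := hV' (mem_of_mem_erase ha)
        rw [hU, mem_insert] at h1
        exact h1.resolve_left (ne_of_mem_erase ha)
      have h1 : ∏ a ∈ V', a.natAbs ≤ w.natAbs * A := by
        rw [← mul_prod_erase V' (fun a => a.natAbs) h]
        exact Nat.mul_le_mul_left _ (hsubA _ hsub)
      have h2 : Real.log ((4 * ∏ a ∈ V', a.natAbs : ℕ) : ℝ) ≤
          Real.log (((4 * A) * w.natAbs : ℕ) : ℝ) := by
        refine Real.log_le_log (by exact_mod_cast (by omega)) ?_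
        exact_mod_cast (by nlinarith : 4 * ∏ a ∈ V', a.natAbs ≤ (4 * A) * w.natAbs)
      have h3 : Real.log (((4 * A) * w.natAbs : ℕ) : ℝ) =
          Real.log ((4 * A : ℕ) : ℝ) + Real.log (w.natAbs : ℝ) := by
        rw [Nat.cast_mul (4 * A), Real.log_mul (Nat.cast_ne_zero.2 (by omega : 4 * A ≠ 0))
          (Nat.cast_ne_zero.2 (by omega : w.natAbs ≠ 0))]
      rw [h3] at h2
      rw [hC₁]
      nlinarith
    · have hsub : V' ⊆ V := by
        intro a ha
        have h1 := hV' ha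
        rw [hU, mem_insert] at h1
        rcases h1 with rfl | h1
        · exact absurd ha h
        · exact h1
      have h2 : Real.log ((4 * ∏ a ∈ V', a.natAbs : ℕ) : ℝ) ≤ Real.log ((4 * A : ℕ) : ℝ) := by
        refine Real.log_le_log (by exact_mod_cast (by omega)) ?_
        exact_mod_cast Nat.mul_le_mul_left 4 (hsubA _ hsub)
      rw [hC₁]
      linarith
  have lT : 0 < Real.log T := Real.log_pos (by exact_mod_cast (by omega : 1 < T))
  obtain ⟨σ, hσd⟩ : ∃ σ : ℝ, σ = 1 + 1 / Real.log T := ⟨_, rfl⟩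
  have hσ : 1 < σ := by
    rw [hσd]
    have : 0 < 1 / Real.log T := by positivity
    linarith
  obtain ⟨P, hPd⟩ : ∃ P : Finset ℕ, P = (range (T + 1)).filter
    (fun p => p.Prime ∧ p ≠ 2 ∧ ∀ a ∈ U, jacobiSym a p = 1) := ⟨_, rfl⟩
  have hP : ∀ p ∈ P, p.Prime ∧ p ≠ 2 ∧ ∀ a ∈ U, jacobiSym a p = 1 := by
    intro p hp'
    rw [hPd, mem_filter] at hp'
    exact hp'.2
  have hmain := main_le ch U (fun i _ n => ch_val i n) σ hσ P
    (fun p h => (hP p h).1) (fun i hi p h => by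
      rw [ch_odd i ((hP p h).1.odd_of_ne_two (hP p h).2.1), (hP p h).2.2 i hi]
      simp)
  -- the product of the values
  have hlog2 := Real.log_two_gt_d9
  have lT2 : Real.log 2 ≤ Real.log T := Real.log_le_log (by norm_num) (by exact_mod_cast hT)
  have hprod : ∏ V' ∈ U.powerset,
      ∑' n : ℕ, (∏ i ∈ V', ch i) n * (n : ℝ) ^ (-σ) ≤
      3 * Real.log T * C₁ ^ (2 ^ (V.card + 1)) * (Real.log (w.natAbs : ℝ)) ^ (2 ^ V.card) := by
    have h1 : ∏ V' ∈ U.powerset,
        ∑' n : ℕ, (∏ i ∈ V', ch i) n * (n : ℝ) ^ (-σ) ≤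
        ∏ V' ∈ U.powerset, ((if V' = ∅ then 3 * Real.log T else 1) * (C₁ *
          (if w ∈ V' then Real.log (w.natAbs : ℝ) else 1))) := by
      refine prod_le_prod (fun V' hV' => hmain.2 V' hV') fun V' hVU => ?_
      by_cases hVe : V' = ∅
      · rw [if_pos hVe, hVe]
        have e : ∑' n : ℕ, (∏ i ∈ (∅ : Finset ℤ), ch i) n * (n : ℝ) ^ (-σ) =
            ∑' n : ℕ, (1 : ℝ) * (n : ℝ) ^ (-σ) := by
          refine tsum_congr fun n => ?_
          rw [prod_empty]
          rfl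
        rw [e, if_neg (notMem_empty w), mul_one]
        refine (zeta_le σ hσ).trans ?_
        have e2 : 1 / (σ - 1) = Real.log T := by
          rw [hσd]
          field_simp
          ring
        rw [e2]
        nlinarith
      · rw [if_neg hVe, one_mul]
        exact hL_le V' (mem_powerset.1 hVU) (nonempty_iff_ne_empty.2 hVe) σ hσ
    refine h1.trans (le_of_eq ?_)
    rw [prod_mul_distrib, prod_mul_distrib, prod_const, card_powerset, hUc,
      prod_ite_eq' U.powerset ∅ (fun _ => 3 * Real.log T), if_pos (empty_mem_powerset _)]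
    have e3 : ∏ V' ∈ U.powerset, (if w ∈ V' then Real.log (w.natAbs : ℝ) else 1) =
        (Real.log (w.natAbs : ℝ)) ^ (2 ^ V.card) := by
      rw [hU, prod_powerset_insert hwV]
      have e4 : ∏ V' ∈ V.powerset, (if w ∈ V' then Real.log (w.natAbs : ℝ) else 1) = 1 :=
        prod_eq_one fun V' hV' => if_neg fun h => hwV (mem_powerset.1 hV' h)
      have e5 : ∏ V' ∈ V.powerset, (if w ∈ insert w V' then Real.log (w.natAbs : ℝ) else 1) =
          (Real.log (w.natAbs : ℝ)) ^ (2 ^ V.card) := by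
        rw [prod_congr rfl fun V' _ => if_pos (mem_insert_self w V'), prod_const, card_powerset]
      rw [e4, e5, one_mul]
    rw [e3]
    ring
  have hbig := hmain.1.trans hprod
  rw [hUc] at hbig
  -- the sum
  have hx : ∀ p ∈ P, 0 < (p : ℝ) ^ (-σ) ∧ (p : ℝ) ^ (-σ) < 1 := fun p h =>
    pow_small p (hP p h).1.two_le σ hσ
  have hsum : ∑ S ∈ HZ U T, (1 : ℝ) / ((∏ p ∈ S, p : ℕ) : ℝ) ≤
      3 * ∏ p ∈ P, (1 - (p : ℝ) ^ (-σ))⁻¹ := by
    have s1 : ∑ S ∈ HZ U T, (1 : ℝ) / ((∏ p ∈ S, p : ℕ) : ℝ) ≤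
        ∑ S ∈ P.powerset, 3 * ∏ p ∈ S, (p : ℝ) ^ (-σ) := by
      have hsub : HZ U T ⊆ P.powerset := by
        intro S hS
        unfold HZ at hS
        rw [mem_filter, mem_powerset] at hS
        rw [mem_powerset]
        intro p hpS
        rw [hPd, mem_filter]
        exact ⟨hS.1 hpS, hS.2.1 p hpS⟩
      refine le_trans (sum_le_sum fun S hS => ?_) (sum_le_sum_of_subset_of_nonneg hsub
        fun S hS _ => ?_)
      · have hSP := hsub hS
        rw [mem_powerset] at hSP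
        unfold HZ at hS
        rw [mem_filter] at hS
        have hle := hS.2.2
        have hpos : 0 < ∏ p ∈ S, p := prod_pos fun p h => (hP p (hSP h)).1.pos
        have e : ∏ p ∈ S, (p : ℝ) ^ (-σ) = ((∏ p ∈ S, p : ℕ) : ℝ) ^ (-σ) := by
          rw [Nat.cast_prod, Real.finsetProd_rpow]
          intro p _
          exact Nat.cast_nonneg p
        rw [e]
        generalize ∏ p ∈ S, p = N at hle hpos ⊢
        have hN : (0 : ℝ) < (N : ℝ) := by exact_mod_cast hpos
        have hNT : (N : ℝ) ≤ (T : ℝ) := by exact_mod_cast hle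
        have hN1 : (1 : ℝ) ≤ (N : ℝ) := by exact_mod_cast hpos
        have h2 : (N : ℝ) ^ (σ - 1) ≤ 3 := by
          have a1 : (N : ℝ) ^ (σ - 1) = Real.exp (Real.log N * (σ - 1)) :=
            Real.rpow_def_of_pos hN _
          have a2 : Real.log N * (σ - 1) ≤ 1 := by
            have a3 : σ - 1 = 1 / Real.log T := by rw [hσd]; ring
            rw [a3, mul_one_div, div_le_one lT]
            exact Real.log_le_log hN hNT
          rw [a1]
          exact (Real.exp_le_exp.2 a2).trans (Real.exp_one_lt_d9.le.trans (by norm_num))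
        have h3 : (N : ℝ) ^ (σ - 1) * (N : ℝ) ^ (-σ) = 1 / N := by
          rw [← Real.rpow_add hN]
          have : σ - 1 + -σ = -1 := by ring
          rw [this, Real.rpow_neg_one, one_div]
        rw [← h3]
        exact mul_le_mul_of_nonneg_right h2 (Real.rpow_nonneg hN.le _)
      · refine mul_nonneg (by norm_num) (prod_nonneg fun p _ => Real.rpow_nonneg (Nat.cast_nonneg _) _)
    refine s1.trans ?_
    rw [← mul_sum, ← prod_one_add]
    refine mul_le_mul_of_nonneg_left (prod_le_prod (fun p h => ?_) fun p h => ?_) (by norm_num)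
    · have := (hx p h).1
      positivity
    · obtain ⟨a1, a2⟩ := hx p h
      rw [← one_div, le_div_iff₀ (by linarith)]
      nlinarith
  generalize ∏ p ∈ P, (1 - (p : ℝ) ^ (-σ))⁻¹ = Q at hbig hsum
  have hH0 : 0 ≤ ∑ S ∈ HZ U T, (1 : ℝ) / ((∏ p ∈ S, p : ℕ) : ℝ) :=
    sum_nonneg fun S _ => by positivity
  generalize ∑ S ∈ HZ U T, (1 : ℝ) / ((∏ p ∈ S, p : ℕ) : ℝ) = H at hsum hH0 ⊢
  have hY0 : 0 < Real.log (w.natAbs : ℝ) := by linarith
  generalize Real.log (w.natAbs : ℝ) = Y at hbig hY0 ⊢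
  generalize V.card = n at hbig ⊢
  have hN0 : (2 : ℕ) ^ (n + 1) ≠ 0 := by positivity
  apply le_of_pow_le_pow_left₀ (n := 2 ^ (n + 1)) hN0 (by positivity)
  have e1 : (9 * C₁ * Y ^ (1 / 2 : ℝ) * Real.log T ^ ((1 : ℝ) / 2 ^ (n + 1))) ^ (2 ^ (n + 1)) =
      (9 * C₁) ^ (2 ^ (n + 1)) * Y ^ (2 ^ n) * Real.log T := by
    rw [mul_pow, mul_pow, ← Real.rpow_natCast (Y ^ (1 / 2 : ℝ)), ← Real.rpow_mul hY0.le,
      ← Real.rpow_natCast (Real.log T ^ ((1 : ℝ) / 2 ^ (n + 1))), ← Real.rpow_mul lT.le]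
    have e2 : (1 / 2 : ℝ) * ((2 ^ (n + 1) : ℕ) : ℝ) = ((2 ^ n : ℕ) : ℝ) := by
      push_cast
      rw [pow_succ]
      ring
    have e3 : (1 : ℝ) / 2 ^ (n + 1) * ((2 ^ (n + 1) : ℕ) : ℝ) = 1 := by
      push_cast
      exact one_div_mul_cancel (by positivity)
    rw [e2, e3, Real.rpow_one, Real.rpow_natCast]
  rw [e1]
  have h3le : (3 : ℝ) ≤ 3 ^ (2 ^ (n + 1)) := by
    calc (3 : ℝ) = 3 ^ 1 := (pow_one 3).symm
      _ ≤ 3 ^ (2 ^ (n + 1)) := pow_le_pow_right₀ (by norm_num) (Nat.one_le_iff_ne_zero.2 hN0)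
  have hpos : 0 ≤ C₁ ^ (2 ^ (n + 1)) * (Y ^ (2 ^ n) * Real.log T) := by positivity
  calc H ^ (2 ^ (n + 1)) ≤ (3 * Q) ^ (2 ^ (n + 1)) := pow_le_pow_left₀ hH0 hsum _
    _ = 3 ^ (2 ^ (n + 1)) * Q ^ (2 ^ (n + 1)) := mul_pow _ _ _
    _ ≤ 3 ^ (2 ^ (n + 1)) * (3 * Real.log T * C₁ ^ (2 ^ (n + 1)) * Y ^ (2 ^ n)) :=
        mul_le_mul_of_nonneg_left hbig (by positivity)
    _ = (3 ^ (2 ^ (n + 1)) * 3) * (C₁ ^ (2 ^ (n + 1)) * (Y ^ (2 ^ n) * Real.log T)) := by ring
    _ ≤ (3 ^ (2 ^ (n + 1)) * 3 ^ (2 ^ (n + 1))) *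
          (C₁ ^ (2 ^ (n + 1)) * (Y ^ (2 ^ n) * Real.log T)) :=
        mul_le_mul_of_nonneg_right (mul_le_mul_of_nonneg_left h3le (by positivity)) hpos
    _ = (9 * C₁) ^ (2 ^ (n + 1)) * Y ^ (2 ^ n) * Real.log T := by
        rw [← mul_pow, mul_pow 9 C₁]
        norm_num
        ring

end Pool.Agent.U796.GY
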